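import Pool.Agent.H820.PC.Defs

/-!
Tubes around algebraic curves in `ℂℙ²`, and the symplectic forms which are positive on them.
-/

set_option autoImplicit false

open Set Topology
open scoped ContDiff

noncomputable section

namespace Pool.Agent.H820.PT

open Pool.Agent.H820.PC

/-- the data of a tube: the equation `F` of an algebraic curve of degree `k`, and a number
`c ≥ 0` -/
structure Tube : Type where
  k : ℕ
  F : C3 → ℂ
  c : ℝ
  isCurve : IsCurve k F
  nonneg : 0 ≤ c

/-- The closed tube `{|F(z)|² ≤ c |z|^{2k}}` around the curve `{F = 0}`; for `c = 0` it is the
curve, and for large `c` it is `ℂℙ²`. -/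
def Tube.region (T : Tube) : Set C3 := {z | ‖T.F z‖ ^ 2 ≤ T.c * (‖z‖ ^ 2) ^ T.k}

/-- `Ω` is positive on the tube: at all points of the tube it is positive on the complex lines
which are tangent to the level sets of `|F| / |z|^k` (and on all complex lines at the points where
the differential of this function, or for `F z = 0` of its holomorphic version, vanishes). A
tangent vector of `ℂℙ²` at `z` is written as a vector `v` orthogonal to `z`; it is tangent to the
complex tangent space of the level set if and only if the differential of `F` vanishes on it. -/
def PositiveOnTube (Ω : TwoForm) (T : Tube) : Prop :=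
  ∀ z v : C3, z ≠ 0 → v ≠ 0 → z ∈ T.region → inner ℂ z v = 0 → fderiv ℂ T.F z v = 0 →
    0 < ev Ω z v (J v)

/-- the symplectic forms on `ℂℙ²` in the class of the Fubini-Study form which are positive on all
tubes of the family `A` -/
def PositiveForms (A : Set Tube) : Set TwoForm :=
  {Ω | IsSymplectic Ω ∧ ∀ T ∈ A, PositiveOnTube Ω T}

end Pool.Agent.H820.PT
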