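import Pool.Agent.H820.PT.One

/-!
A symplectic form which is positive on tubes covering `ℂℙ²` has a positive wedge product with some
taming form, and the space of these forms is contractible.
-/

set_option autoImplicit false

open Set Topology Filter
open scoped ContDiff

noncomputable section

namespace Pool.Agent.H820.PT

open Pool.Agent.H820.PC

/-- the data of a tube, with the estimate -/
structure TData (Ω : TwoForm) where
  T : Tube
  r : ℕ
  c : ℝ
  C : ℝ
  N₀ : ℕ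
  hc : 0 < c
  hC : 0 ≤ C
  est : ∀ n, N₀ ≤ n → ∀ z e v, IsFrame z e v →
        (2⁻¹ ≤ yt T r z → yt T r z ^ n * c ≤
          (1 + T.c) ^ (r * n) * wd (Ω.1 z) ((kap (r * n) T.isCurve.hom).1 z) e v) ∧
        -(yt T r z ^ n * (C * (1 + n))) ≤
          (1 + T.c) ^ (r * n) * wd (Ω.1 z) ((kap (r * n) T.isCurve.hom).1 z) e v

theorem exists_tdata {Ω : TwoForm} {T : Tube} (hP : PositiveOnTube Ω T) :
    ∃ D : TData Ω, D.T = T := by
  obtain ⟨r, c, C, N₀, h1, h2, h3⟩ := one_tube hP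
  exact ⟨⟨T, r, c, C, N₀, h1, h2, h3⟩, rfl⟩

/-- the weighted wedge product of a piece -/
def piece {Ω : TwoForm} (D : TData Ω) (n : ℕ) (z e v : C3) : ℝ :=
  (1 + D.T.c) ^ (D.r * n) * wd (Ω.1 z) ((kap (D.r * n) D.T.isCurve.hom).1 z) e v

theorem lower_t {Ω : TwoForm} (D : TData Ω) {N : ℕ} (hN : D.N₀ ≤ N) {z e n : C3}
    (hf : IsFrame z e n) :
    -(((2 : ℝ)⁻¹) ^ N * (D.C * (1 + N))) ≤ piece D N z e n := by
  obtain ⟨h1, h2⟩ := D.est N hN z e n hf
  have hy := yt_pos D.T D.r z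
  have hC := D.hC
  rcases le_or_gt (2⁻¹ : ℝ) (yt D.T D.r z) with h | h
  · have h3 := h1 h
    have h4 : 0 ≤ yt D.T D.r z ^ N * D.c := by
      have := D.hc
      positivity
    have h5 : 0 ≤ ((2 : ℝ)⁻¹) ^ N * (D.C * (1 + N)) := by positivity
    exact (by linarith : -(((2 : ℝ)⁻¹) ^ N * (D.C * (1 + N))) ≤ 0).trans (h4.trans h3)
  · refine le_trans ?_ h2
    have h3 : yt D.T D.r z ^ N ≤ ((2 : ℝ)⁻¹) ^ N := pow_le_pow_left₀ hy.le h.le N
    have h4 : 0 ≤ D.C * (1 + N) := by positivity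
    have := mul_le_mul_of_nonneg_right h3 h4
    linarith

theorem upper_t {Ω : TwoForm} (D : TData Ω) {N : ℕ} (hN : D.N₀ ≤ N) {z e n : C3}
    (hf : IsFrame z e n) (hz : 2 / 3 < yt D.T D.r z) :
    ((2 / 3 : ℝ)) ^ N * D.c ≤ piece D N z e n := by
  obtain ⟨h1, h2⟩ := D.est N hN z e n hf
  have h3 := h1 (by linarith)
  refine le_trans ?_ h3
  apply mul_le_mul_of_nonneg_right _ D.hc.le
  exact pow_le_pow_left₀ (by norm_num) hz.le N

theorem exists_taming_t {Ω : TwoForm} {A : Set Tube} (hA : ∀ z : C3, z ≠ 0 → ∃ T ∈ A, z ∈ T.region)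
    (h : ∀ T ∈ A, PositiveOnTube Ω T) :
    ∃ κ : TwoForm, IsK κ ∧ ∀ z e n, IsFrame z e n → 0 < wd (Ω.1 z) (κ.1 z) e n := by
  classical
  have hD : ∀ p : Fr, ∃ D : TData Ω, p.1.1 ∈ D.T.region := by
    intro p
    obtain ⟨T, hT, hp⟩ := hA p.1.1 (Fr_ne p.2)
    obtain ⟨D, hD⟩ := exists_tdata (h T hT)
    exact ⟨D, hD ▸ hp⟩
  choose D hD0 using hD
  have hyc : ∀ p : Fr, ContinuousOn (fun q : C3 × C3 × C3 => yt (D p).T (D p).r q.1) Fr := by
    intro p
    have h1 := contOn_al (k := (D p).T.k) (D p).T.isCurve.hom.smooth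
    unfold yt
    apply ContinuousOn.pow
    apply continuousOn_const.mul
    apply ContinuousOn.inv₀ (continuousOn_const.add h1)
    intro q _
    have := al_nonneg (D p).T.k (D p).T.F q.1
    exact (by linarith : (0 : ℝ) < 1 + al (D p).T.k (D p).T.F q.1).ne'
  have hcover := isCompact_Fr.elim_nhdsWithin_subcover'
    (fun p hp => {q | 2 / 3 < yt (D ⟨p, hp⟩).T (D ⟨p, hp⟩).r q.1}) (by
      intro p hp
      have h1 := hyc ⟨p, hp⟩ p hp
      have h2 : 2 / 3 < yt (D ⟨p, hp⟩).T (D ⟨p, hp⟩).r p.1 :=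
        lt_of_lt_of_le (by norm_num) (one_le_yt _ (Fr_ne hp) (hD0 ⟨p, hp⟩))
      exact h1.eventually (lt_mem_nhds h2))
  obtain ⟨t, ht⟩ := hcover
  rcases t.eq_empty_or_nonempty with hte | htne
  · refine ⟨fsForm, isK_fsForm, fun z e n hf => ?_⟩
    have := ht (show (z, e, n) ∈ Fr from hf)
    rw [hte] at this
    simp at this
  set M : ℝ := ∑ i ∈ t, (D i).C with hM
  have hev : ∀ᶠ N : ℕ in atTop, ∀ i ∈ t, (D i).N₀ ≤ N ∧
      ((2 : ℝ)⁻¹) ^ N * (M * (1 + N)) < (2 / 3 : ℝ) ^ N * (D i).c := by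
    rw [Filter.eventually_all_finset]
    intro i hi
    exact (eventually_ge_atTop _).and (eventually_small (by norm_num) (by norm_num) M _ (D i).hc)
  obtain ⟨N, hN⟩ := hev.exists
  -- the weights
  set l : Fr → ℝ := fun i => (1 + (D i).T.c) ^ ((D i).r * N) with hl
  have hl0 : ∀ i, 0 < l i := fun i => by
    have := (D i).T.nonneg
    simp only [hl]
    positivity
  set L : ℝ := ∑ i ∈ t, l i with hL
  have hL0 : 0 < L := Finset.sum_pos (fun i _ => hl0 i) htne
  set B : TwoForm := ∑ i ∈ t, (l i / L) • kap ((D i).r * N) (D i).T.isCurve.hom with hB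
  have hBK : IsK B := by
    have := convex_IsK.sum_mem (t := t) (w := fun i => l i / L)
      (z := fun i => kap ((D i).r * N) (D i).T.isCurve.hom)
      (fun i _ => by have := hl0 i; positivity) (by
        rw [← Finset.sum_div, div_self hL0.ne'])
      (fun i _ => isK_kap _ (D i).T.isCurve.hom)
    exact this
  refine ⟨B, hBK, fun z e n hf => ?_⟩
  have hsum : wd (Ω.1 z) (B.1 z) e n = L⁻¹ * ∑ i ∈ t, piece (D i) N z e n := by
    rw [← wdL_apply, hB, map_sum, Finset.mul_sum]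
    refine Finset.sum_congr rfl fun i _ => ?_
    rw [map_smul, wdL_apply, smul_eq_mul]
    unfold piece
    simp only [hl]
    field_simp
  rw [hsum]
  apply mul_pos (inv_pos.2 hL0)
  obtain ⟨i, hi, hi'⟩ := mem_iUnion₂.1 (ht (show (z, e, n) ∈ Fr from hf))
  have hi' : 2 / 3 < yt (D i).T (D i).r z := hi'
  rw [← Finset.add_sum_erase t _ hi]
  have h1 := upper_t (D i) (hN i hi).1 hf hi'
  have h2 : ∑ j ∈ t.erase i, -(((2 : ℝ)⁻¹) ^ N * ((D j).C * (1 + N))) ≤
      ∑ j ∈ t.erase i, piece (D j) N z e n :=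
    Finset.sum_le_sum fun j hj => lower_t (D j) (hN j (Finset.mem_of_mem_erase hj)).1 hf
  have h3 : -(((2 : ℝ)⁻¹) ^ N * (M * (1 + N))) ≤
      ∑ j ∈ t.erase i, -(((2 : ℝ)⁻¹) ^ N * ((D j).C * (1 + N))) := by
    rw [Finset.sum_neg_distrib, ← Finset.mul_sum, ← Finset.sum_mul]
    apply neg_le_neg
    apply mul_le_mul_of_nonneg_left _ (by positivity)
    apply mul_le_mul_of_nonneg_right _ (by positivity)
    rw [hM, ← Finset.add_sum_erase t _ hi]
    have := (D i).hC
    linarith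
  have h4 := (hN i hi).2
  linarith

/-- **The symplectic forms which are positive on tubes covering `ℂℙ²` form a contractible
space.** -/
theorem contractible_positiveForms {A : Set Tube}
    (hA : ∀ z : C3, z ≠ 0 → ∃ T ∈ A, z ∈ T.region) : ContractibleSpace (PositiveForms A) := by
  have hvert : ∀ z v : C3, z ≠ 0 → v ≠ 0 → inner ℂ z v = 0 → ∀ c : ℂ, v ≠ c • z := by
    intro z v hz hv hi c hc
    rw [hc, inner_smul_right] at hi
    rcases mul_eq_zero.1 hi with h | h
    · rw [h, zero_smul] at hc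
      exact hv hc
    · exact hz (inner_self_eq_zero.1 h)
  have hpos : ∀ κ : TwoForm, IsK κ → ∀ T : Tube, PositiveOnTube κ T := by
    intro κ hk T z v hz hv _ hi _
    exact (isK_iff.1 hk).2 z v hz (hvert z v hz hv hi)
  refine contractible_of (fun Ω h => exists_taming_t hA h.2) ?_ ?_
  · intro κ hk
    exact ⟨(isK_iff.1 hk).1, fun T _ => hpos κ hk T⟩
  · intro Ω h κ hk hw t h0 h1
    refine ⟨seg_symplectic h.1 hk hw h0 h1, fun T hT z v hz hv hr hi hF => ?_⟩
    have a1 : 0 < Ω.1 z ![v, J v] := h.2 T hT z v hz hv hr hi hF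
    have a2 : 0 < κ.1 z ![v, J v] := hpos κ hk T z v hz hv hr hi hF
    show 0 < ((1 - t) • Ω + t • κ).1 z ![v, J v]
    rw [add_at', smul_at', smul_at']
    rcases h0.eq_or_lt with ht | ht
    · rw [← ht]
      linarith
    · have h1' : 0 ≤ 1 - t := by linarith
      have b1 : 0 ≤ (1 - t) * Ω.1 z ![v, J v] := by positivity
      have b2 : 0 < t * κ.1 z ![v, J v] := by positivity
      linarith

end Pool.Agent.H820.PT
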