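import Pool.Agent.H820.ML.Final
import Pool.Agent.H820.PT.Sum

/-!
Diffeomorphisms of `ℂℙ²` which satisfy the tube criterion are isotopic to symplectomorphisms. The
proof is the one of `Pool.Agent.H820.ML.Final` for the curve criterion.
-/

set_option autoImplicit false

open Set Topology Filter
open scoped ContDiff

noncomputable section

namespace Pool.Agent.H820.PT

open Pool.Agent.H820.PC Pool.Agent.H820.ML

/-- The pull-back of the Fubini-Study form by `F` is positive on the tube `T`: at all points of the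
tube it is positive on the complex lines which are tangent to the level sets of `|T.F| / |z|^k` (and
on all complex lines at the points where the differential of `T.F` vanishes on all tangent
vectors). -/
def PullbackPositiveOnTube (F : C3 → C3) (T : Tube) : Prop :=
  ∀ z v : C3, z ≠ 0 → v ≠ 0 → z ∈ T.region → inner ℂ z v = 0 → fderiv ℂ T.F z v = 0 →
    0 < pfs F z v (J v)

/-- The tube criterion: every point of `ℂℙ²` belongs to a tube on which the pull-back of the
Fubini-Study form by `F` is positive. -/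
def TubeCriterion (F : C3 → C3) : Prop :=
  ∀ z : C3, z ≠ 0 → ∃ T : Tube, z ∈ T.region ∧ PullbackPositiveOnTube F T

/-- **Diffeomorphisms which satisfy the tube criterion are isotopic to symplectomorphisms.** -/
theorem isotopic_of_tubes {F : C3 → C3} (hF : IsDiffeo F) (hC : TubeCriterion F) :
    ∃ G, IsSymplectomorphism G ∧ Isotopic F G := by
  have h0 := hF.ne
  set Ω : TwoForm := pform F hF.lift h0 with hΩ
  have hev : ∀ z v w : C3, z ≠ 0 → Ω.1 z ![v, w] = pfs F z v w := fun z v w hz =>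
    pform_at hF.lift h0 hz v w
  -- positivity of the square
  have hpos : ∀ z e n, IsFrame z e n → 0 < pfA (Ω.1 z) e n := by
    intro z e n hf
    have h1 := hF.oriented z e n hf.indep
    have h2 : wedge (pfs F z) (pfs F z) e n = wd (Ω.1 z) (Ω.1 z) e n := by
      unfold wedge wd
      simp only [hev z _ _ hf.z0]
    rw [h2, wd_self] at h1
    linarith
  obtain ⟨κ, hκ, hw⟩ := exists_taming_t (Ω := Ω) (A := {T | PositiveOnTube Ω T}) (by
    intro z hz
    obtain ⟨T, h1, h2⟩ := hC z hz
    refine ⟨T, fun y v hy hv hr hi hd => ?_, h1⟩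
    show 0 < Ω.1 y ![v, J v]
    rw [hev y _ _ hy]
    exact h2 y v hy hv hr hi hd) (fun T hT => hT)
  -- the connection forms
  obtain ⟨β, hβ, hκβ⟩ := hκ.cohomologous
  have hb₀ : IsCn l0 (pc F (cv lam0)) := isCn_pc hF.lift h0 isCn_lam0
  have hb₁ : IsCn l0 (fun z => cv lam0 z + cv β z) := by
    refine ⟨isCn_lam0.smooth.add (contDiffOn_cv hβ.smooth), ?_, ?_⟩
    · intro c z v hc hz
      have hb : IsCn 0 (cv β) := isCn_of hβ.isConn fun z c hz => hβ.horizontal z _ 0 c hz rfl
      show cv lam0 (c • z) (c • v) + cv β (c • z) (c • v) = cv lam0 z v + cv β z v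
      rw [isCn_lam0.invariant c z v hc hz, hb.invariant c z v hc hz]
    · intro z c hz
      have hb : IsCn 0 (cv β) := isCn_of hβ.isConn fun z c hz => hβ.horizontal z _ 0 c hz rfl
      show cv lam0 z (c • z) + cv β z (c • z) = l0 c
      rw [isCn_lam0.vertical z c hz, hb.vertical z c hz]
      exact add_zero _
  have k₀ : ∀ z v w : C3, z ≠ 0 → Ω.1 z ![v, w] = extDeriv (cov (pc F (cv lam0))) z ![v, w] :=
    pform_ext hF.lift h0
  have k₁ : ∀ z v w : C3, z ≠ 0 →
      κ.1 z ![v, w] = extDeriv (cov fun z => cv lam0 z + cv β z) z ![v, w] := by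
    intro z v w hz
    have hb : IsCn 0 (cv β) := isCn_of hβ.isConn fun z c hz => hβ.horizontal z _ 0 c hz rfl
    rw [hκβ z v w hz, ← dlam0 hz]
    unfold d
    rw [extDeriv_cov (b := fun z => cv lam0 z + cv β z)
      ((isCn_lam0.diff hz).hasFDerivAt.add (hb.diff hz).hasFDerivAt)]
    have e1 : extDeriv lam0 z ![v, w] = fderiv ℝ (cv lam0) z v w - fderiv ℝ (cv lam0) z w v := by
      conv_lhs => rw [← cov_cv lam0]
      exact extDeriv_cov (isCn_lam0.diff hz).hasFDerivAt v w
    have e2 : extDeriv β z ![v, w] = fderiv ℝ (cv β) z v w - fderiv ℝ (cv β) z w v := by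
      conv_lhs => rw [← cov_cv β]
      exact extDeriv_cov (hb.diff hz).hasFDerivAt v w
    rw [e1, e2]
    simp only [add_apply]
    ring
  have k₂ : ∀ z v w : C3, z ≠ 0 → fsForm.1 z ![v, w] = extDeriv (cov (cv lam0)) z ![v, w] := by
    intro z v w hz
    rw [fsForm_at hz, cov_cv, dlam0 hz]
  -- positivity along the path
  have hp : ∀ s z e n, IsFrame z e n → 0 < pfA ((formOf Ω κ fsForm s).1 z) e n := by
    intro s z e n hf
    have a1 := hpos z e n hf
    have a2 := hκ.pfA_pos hf
    have a3 := hw z e n hf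
    have hsum := sum_w s
    rcases w_cases s with ⟨q1, q2, q3⟩ | ⟨q1, q2, q3⟩
    · have e1 : (formOf Ω κ fsForm s).1 z = w0 s • Ω.1 z + w1 s • κ.1 z := by
        unfold formOf
        rw [q1, zero_smul, add_zero, add_at, smul_at, smul_at]
      rw [e1, pfA_add, pfA_smul, pfA_smul, wd_smul_left, wd_smul_right]
      rw [q1, add_zero] at hsum
      have b1 : 0 ≤ w0 s ^ 2 * pfA (Ω.1 z) e n := by positivity
      have b3 : 0 ≤ w0 s * (w1 s * wd (Ω.1 z) (κ.1 z) e n) := by positivity
      have b2 : 0 ≤ w1 s ^ 2 * pfA (κ.1 z) e n := by positivity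
      rcases q2.eq_or_lt with h | h
      · have : w1 s = 1 := by linarith
        rw [← h, this]
        linarith
      · have : 0 < w0 s ^ 2 * pfA (Ω.1 z) e n := by positivity
        linarith
    · have hK : IsK (formOf Ω κ fsForm s) := by
        have := convex_IsK hκ isK_fsForm q2 q3 (by linarith)
        unfold formOf
        rw [q1, zero_smul, zero_add]
        exact this
      exact hK.pfA_pos hf
  have hpath := isPath_pathOf hb₀ hb₁ isCn_lam0 k₀ k₁ k₂ hp
  have hom : ∀ (s : ℝ) (z v w : C3), z ≠ 0 →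
      Om (pathOf (pc F (cv lam0)) (fun z => cv lam0 z + cv β z) (cv lam0)) (s, z) v w =
        (formOf Ω κ fsForm s).1 z ![v, w] := fun s z v w hz =>
    om_pathOf hb₀ hb₁ isCn_lam0 k₀ k₁ k₂ hz v w
  obtain ⟨Ψ, Θ, hΨs, hΨ, hΘ, hΘΨ, hΨΘ, hΨ0, hpull⟩ := exists_isotopy hpath
  obtain ⟨G, hG, hGF, hFG⟩ := hF.inverse
  have hΨne : ∀ s z, z ≠ 0 → Ψ s z ≠ 0 := by
    intro s z hz h2
    have := hΘΨ s z
    rw [h2, (hΘ s).zero] at this
    exact hz this.symm
  have hGne : ∀ z, z ≠ 0 → G z ≠ 0 := by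
    intro z hz h2
    have := hFG z
    rw [h2, hF.lift.zero] at this
    exact hz this.symm
  -- the pull-backs by the maps of the isotopy
  have hpfs : ∀ (s : ℝ) (z v w : C3), z ≠ 0 →
      pfs (fun z => F (Ψ s z)) z v w = (formOf Ω κ fsForm s).1 z ![v, w] := by
    intro s z v w hz
    have e1 : HasFDerivAt (fun x => F (Ψ s x))
        ((fderiv ℝ F (Ψ s z)).comp (fderiv ℝ (Ψ s) z)) z :=
      (hF.lift.diff (hΨne s z hz)).hasFDerivAt.comp z ((hΨ s).diff hz).hasFDerivAt
    rw [← hom s z v w hz, ← hpull s z v w hz, hom 0 _ _ _ (hΨne s z hz), formOf_at]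
    obtain ⟨c1, c2, c3⟩ := w_left (le_refl (0 : ℝ))
    rw [c1, c2, c3, hev _ _ _ (hΨne s z hz)]
    unfold pfs
    rw [e1.fderiv]
    simp
  have hdiff : ∀ s, IsDiffeo (fun z => F (Ψ s z)) := by
    intro s
    refine ⟨hF.lift.comp (hΨ s) (hΨne s), ⟨fun z => Θ s (G z), (hΘ s).comp hG hGne,
      fun z => by
        show Θ s (G (F (Ψ s z))) = z
        rw [hGF, hΘΨ], fun z => by
        show F (Ψ s (Θ s (G z))) = z
        rw [hΨΘ, hFG]⟩, fun z v w hi => ?_⟩
    have h2 : wedge (pfs (fun z => F (Ψ s z)) z) (pfs (fun z => F (Ψ s z)) z) v w =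
        wedge (ev (formOf Ω κ fsForm s) z) (ev (formOf Ω κ fsForm s) z) v w := by
      unfold wedge
      simp only [hpfs s z _ _ (ne_of_indep hi)]
      rfl
    rw [h2]
    exact pos_of_frames (hp s) z v w hi
  refine ⟨fun z => F (Ψ 1 z), ⟨hdiff 1, fun z v w hz => ?_⟩, fun s z => F (Ψ s z), ?_, hdiff,
    ?_, rfl⟩
  · rw [hpfs 1 z v w hz, formOf_at]
    obtain ⟨c1, c2, c3⟩ := w_right (le_refl (1 : ℝ))
    rw [c1, c2, c3, fsForm_at hz]
    simp
  · exact hF.lift.smooth.comp hΨs fun p hp => hΨne p.1 p.2 hp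
  · funext z
    show F (Ψ 0 z) = F z
    rw [hΨ0]

end Pool.Agent.H820.PT
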