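import Pool.Agent.H820.PC.Final
import Pool.Agent.H820.PT.Defs

/-!
The estimate for one tube.
-/

set_option autoImplicit false

open Set Topology Filter
open scoped ContDiff

noncomputable section

namespace Pool.Agent.H820.PT

open Pool.Agent.H820.PC

theorem Tube.mem_region {T : Tube} {z : C3} (hz : z ≠ 0) :
    z ∈ T.region ↔ al T.k T.F z ≤ T.c := by
  have h : 0 < (‖z‖ ^ 2) ^ T.k := by
    have : ‖z‖ ≠ 0 := norm_ne_zero_iff.2 hz
    positivity
  show ‖T.F z‖ ^ 2 ≤ T.c * (‖z‖ ^ 2) ^ T.k ↔ ‖T.F z‖ ^ 2 * ((‖z‖ ^ 2) ^ T.k)⁻¹ ≤ T.c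
  rw [← div_eq_mul_inv, div_le_iff₀ h]

theorem near_tube {Ω : TwoForm} {T : Tube} (hP : PositiveOnTube Ω T) :
    ∃ m c d : ℝ, 0 ≤ m ∧ 0 < c ∧ 0 < d ∧ ∀ p ∈ AFr T.F, al T.k T.F p.1 ≤ T.c + d →
      0 < En Ω p ∧ c ≤ Tn Ω p + m * (En Ω p * Dn T.F p) := by
  have hs := T.isCurve.hom.smooth
  refine (isCompact_AFr hs).induction_on (p := fun S => ∃ m c d : ℝ, 0 ≤ m ∧ 0 < c ∧ 0 < d ∧
    ∀ p ∈ S, al T.k T.F p.1 ≤ T.c + d → 0 < En Ω p ∧ c ≤ Tn Ω p + m * (En Ω p * Dn T.F p))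
    ?_ ?_ ?_ ?_
  · exact ⟨0, 1, 1, le_rfl, one_pos, one_pos, fun p hp => absurd hp (by simp)⟩
  · rintro s t hst ⟨m, c, d, h1, h2, h3, h4⟩
    exact ⟨m, c, d, h1, h2, h3, fun p hp => h4 p (hst hp)⟩
  · rintro s t ⟨m, c, d, h1, h2, h3, h4⟩ ⟨m', c', d', h1', h2', h3', h4'⟩
    refine ⟨max m m', min c c', min d d', le_max_of_le_left h1, lt_min h2 h2', lt_min h3 h3',
      fun p hp hd => ?_⟩
    rcases hp with hp | hp
    · obtain ⟨k1, k2⟩ := h4 p hp (hd.trans (add_le_add_right (min_le_left _ _) _))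
      refine ⟨k1, (min_le_left _ _).trans (k2.trans ?_)⟩
      have := mul_le_mul_of_nonneg_right (le_max_left m m') (mul_nonneg k1.le (Dn_nonneg T.F p))
      linarith
    · obtain ⟨k1, k2⟩ := h4' p hp (hd.trans (add_le_add_right (min_le_right _ _) _))
      refine ⟨k1, (min_le_right _ _).trans (k2.trans ?_)⟩
      have := mul_le_mul_of_nonneg_right (le_max_right m m') (mul_nonneg k1.le (Dn_nonneg T.F p))
      linarith
  · intro p hp
    have hE := (contOn_En Ω).mono (inter_subset_left : AFr T.F ⊆ Fr) p hp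
    have hT := (contOn_Tn Ω).mono (inter_subset_left : AFr T.F ⊆ Fr) p hp
    have hA := (contOn_al (k := T.k) hs).mono (inter_subset_left : AFr T.F ⊆ Fr) p hp
    have hD := (cont_Dn hs).continuousWithinAt (s := AFr T.F) (x := p)
    obtain ⟨hpF, hpe⟩ := hp
    have hpe : fderiv ℝ T.F p.1 p.2.1 = 0 := hpe
    have hfr : IsFrame p.1 p.2.1 p.2.2 := hpF
    have hz : p.1 ≠ 0 := Fr_ne hpF
    have hne : ∀ x : C3, ‖x‖ = 1 → x ≠ 0 := fun x hx h0 => by
      rw [h0, norm_zero] at hx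
      exact zero_ne_one hx
    rcases le_or_gt (al T.k T.F p.1) T.c with h0 | h0
    · -- a point of the tube
      have hreg : p.1 ∈ T.region := (Tube.mem_region hz).2 h0
      have hEp : 0 < En Ω p := hP p.1 p.2.1 hz (hne _ hfr.ne) hreg hfr.ze
        (by rw [← T.isCurve.fderiv_eq, hpe])
      obtain ⟨m, hm, hm'⟩ : ∃ m : ℝ, 0 ≤ m ∧ 0 < Tn Ω p + m * (En Ω p * Dn T.F p) := by
        rcases (Dn_nonneg T.F p).eq_or_lt with hD0 | hD0
        · have hn : fderiv ℝ T.F p.1 p.2.2 = 0 := by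
            unfold Dn at hD0
            have : ‖fderiv ℝ T.F p.1 p.2.2‖ = 0 := by
              apply pow_eq_zero_iff (two_ne_zero) |>.1 hD0.symm
            exact norm_eq_zero.1 this
          have hEn : 0 < Ω.1 p.1 ![p.2.2, J p.2.2] := hP p.1 p.2.2 hz (hne _ hfr.nn) hreg hfr.zn
            (by rw [← T.isCurve.fderiv_eq, hn])
          refine ⟨0, le_rfl, ?_⟩
          unfold Tn
          linarith
        · have hED : 0 < En Ω p * Dn T.F p := mul_pos hEp hD0
          refine ⟨(|Tn Ω p| + 1) / (En Ω p * Dn T.F p), by positivity, ?_⟩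
          rw [div_mul_cancel₀ _ hED.ne']
          have := neg_abs_le (Tn Ω p)
          linarith
      have hcont : ContinuousWithinAt (fun p => Tn Ω p + m * (En Ω p * Dn T.F p)) (AFr T.F) p :=
        hT.add (continuousWithinAt_const.mul (hE.mul hD))
      refine ⟨{q | 0 < En Ω q ∧ (Tn Ω p + m * (En Ω p * Dn T.F p)) / 2 <
        Tn Ω q + m * (En Ω q * Dn T.F q)}, ?_, m, (Tn Ω p + m * (En Ω p * Dn T.F p)) / 2, 1, hm,
        half_pos hm', one_pos, fun q hq _ => ⟨hq.1, hq.2.le⟩⟩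
      exact (hE.eventually (lt_mem_nhds hEp)).and
        (hcont.eventually (lt_mem_nhds (half_lt_self hm')))
    · have hmid : (al T.k T.F p.1 + T.c) / 2 < al T.k T.F p.1 := by linarith
      refine ⟨{q | (al T.k T.F p.1 + T.c) / 2 < al T.k T.F q.1}, ?_, 0, 1,
        (al T.k T.F p.1 - T.c) / 2, le_rfl, one_pos, by linarith, fun q hq hq' => ?_⟩
      · exact hA.eventually (lt_mem_nhds hmid)
      · have hq : (al T.k T.F p.1 + T.c) / 2 < al T.k T.F q.1 := hq
        linarith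

/-- the normalized peak function of a tube -/
def yt (T : Tube) (r : ℕ) (z : C3) : ℝ := ((1 + T.c) * (1 + al T.k T.F z)⁻¹) ^ r

theorem yt_pos (T : Tube) (r : ℕ) (z : C3) : 0 < yt T r z := by
  have h1 := T.nonneg
  have h2 := al_nonneg T.k T.F z
  unfold yt
  positivity

theorem one_le_yt {T : Tube} (r : ℕ) {z : C3} (hz : z ≠ 0) (h : z ∈ T.region) :
    1 ≤ yt T r z := by
  have h1 := T.nonneg
  have h2 := al_nonneg T.k T.F z
  have h3 := (Tube.mem_region hz).1 h
  unfold yt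
  apply one_le_pow₀
  rw [← div_eq_mul_inv, one_le_div (by positivity)]
  linarith

theorem one_tube {Ω : TwoForm} {T : Tube} (hP : PositiveOnTube Ω T) :
    ∃ (r : ℕ) (c C : ℝ) (N₀ : ℕ), 0 < c ∧ 0 ≤ C ∧ ∀ n, N₀ ≤ n → ∀ z e v, IsFrame z e v →
        (2⁻¹ ≤ yt T r z → yt T r z ^ n * c ≤
          (1 + T.c) ^ (r * n) * wd (Ω.1 z) ((kap (r * n) T.isCurve.hom).1 z) e v) ∧
        -(yt T r z ^ n * (C * (1 + n))) ≤
          (1 + T.c) ^ (r * n) * wd (Ω.1 z) ((kap (r * n) T.isCurve.hom).1 z) e v := by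
  obtain ⟨m, c, d, hm, hc, hd, hmain⟩ := near_tube hP
  have hH := T.isCurve.hom
  have hs := hH.smooth
  have hc0 := T.nonneg
  have hk : (0 : ℝ) < T.k := by
    have := T.isCurve.pos
    positivity
  -- the exponent
  obtain ⟨r, hr⟩ : ∃ r : ℕ, 2 < (1 + d / (1 + T.c)) ^ r :=
    pow_unbounded_of_one_lt 2 (by
      have : 0 < d / (1 + T.c) := by positivity
      linarith)
  have hr1 : 1 ≤ r := by
    rcases Nat.eq_zero_or_pos r with h | h
    · rw [h, pow_zero] at hr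
      norm_num at hr
    · exact h
  have hr0 : (1 : ℝ) ≤ r := by exact_mod_cast hr1
  -- bounds
  obtain ⟨B1, hB1⟩ := isCompact_Fr.exists_bound_of_continuousOn (contOn_Tn Ω)
  obtain ⟨B2, hB2⟩ := isCompact_Fr.exists_bound_of_continuousOn
    ((contOn_En Ω).mul (cont_Dn hs).continuousOn)
  set C : ℝ := max (max B1 0) ((r : ℝ) / T.k * (max B2 0)) with hC
  have hC0 : 0 ≤ C := le_max_of_le_left (le_max_right _ _)
  obtain ⟨N₀, hN₀⟩ := exists_nat_ge (m * (T.k * (1 + T.c + d)))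
  refine ⟨r, c, C, N₀, hc, hC0, fun n hn z e v hf => ?_⟩
  -- an adapted frame
  obtain ⟨e', n', hf', he'⟩ := exists_frame hf.nz (fderiv ℂ T.F z)
  rw [wd_frame hf' hf]
  have he1 : fderiv ℝ T.F z e' = 0 := by rw [T.isCurve.fderiv_eq, he']
  rw [wd_kap _ (r * n) hH hf' he1]
  have hp : (z, e', n') ∈ AFr T.F := ⟨hf', he1⟩
  set a : ℝ := al T.k T.F z with ha
  have ha0 : 0 ≤ a := al_nonneg _ _ _
  have hy1 : (1 + a)⁻¹ ≤ 1 := inv_le_one_of_one_le₀ (by linarith)
  have hyN : yt T r z ^ n = (1 + T.c) ^ (r * n) * ((1 + a)⁻¹) ^ (r * n) := by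
    unfold yt
    rw [← pow_mul, mul_pow]
  have hypos : 0 < yt T r z ^ n := pow_pos (yt_pos T r z) n
  have hD0 := Dn_nonneg T.F (z, e', n')
  have eT : Ω.1 z ![e', J e'] + Ω.1 z ![n', J n'] = Tn Ω (z, e', n') := rfl
  have eE : Ω.1 z ![e', J e'] = En Ω (z, e', n') := rfl
  have eD : ‖fderiv ℝ T.F z n'‖ ^ 2 = Dn T.F (z, e', n') := rfl
  rw [← mul_assoc, ← hyN, eT, eE, eD]
  constructor
  · intro hy
    apply mul_le_mul_of_nonneg_left _ hypos.le
    have h1 : a ≤ T.c + d := by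
      by_contra hcon
      have hcon : T.c + d < a := not_le.1 hcon
      have h2 : (1 + T.c) * (1 + a)⁻¹ < (1 + d / (1 + T.c))⁻¹ := by
        rw [← div_eq_mul_inv, div_lt_iff₀ (by positivity), inv_mul_eq_div,
          lt_div_iff₀ (by positivity)]
        have : (1 + T.c) * (1 + d / (1 + T.c)) = 1 + T.c + d := by
          field_simp
        rw [this]
        linarith
      have h3 : yt T r z < ((1 + d / (1 + T.c))⁻¹) ^ r :=
        pow_lt_pow_left₀ h2 (by positivity) (by omega)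
      have h4 : ((1 + d / (1 + T.c))⁻¹) ^ r < 2⁻¹ := by
        rw [inv_pow]
        exact inv_strictAnti₀ (by norm_num) hr
      linarith
    obtain ⟨h2, h3⟩ := hmain _ hp h1
    refine h3.trans (add_le_add_right ?_ _)
    have h4 : m ≤ ((r * n : ℕ) : ℝ) / T.k * (1 + a)⁻¹ := by
      rw [div_mul_eq_mul_div, le_div_iff₀ hk, ← div_eq_mul_inv, le_div_iff₀ (by positivity)]
      calc m * T.k * (1 + a) ≤ m * T.k * (1 + T.c + d) := by
            apply mul_le_mul_of_nonneg_left _ (by positivity)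
            linarith
        _ = m * (T.k * (1 + T.c + d)) := by ring
        _ ≤ N₀ := hN₀
        _ ≤ n := by exact_mod_cast hn
        _ ≤ ((r * n : ℕ) : ℝ) := by
            push_cast
            have : (0 : ℝ) ≤ n := Nat.cast_nonneg n
            nlinarith
    have h5 := mul_le_mul_of_nonneg_right h4 (mul_nonneg h2.le hD0)
    calc m * (En Ω (z, e', n') * Dn T.F (z, e', n')) ≤
        ((r * n : ℕ) : ℝ) / T.k * (1 + a)⁻¹ * (En Ω (z, e', n') * Dn T.F (z, e', n')) := h5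
      _ = _ := by ring
  · have h1 : -C ≤ Tn Ω (z, e', n') := by
      have h2 := hB1 (z, e', n') hf'
      rw [Real.norm_eq_abs] at h2
      have h3 := neg_abs_le (Tn Ω (z, e', n'))
      have h4 : B1 ≤ C := (le_max_left _ _).trans (le_max_left _ _)
      linarith
    have h2 : -(max B2 0) ≤ En Ω (z, e', n') * Dn T.F (z, e', n') := by
      have h2 := hB2 (z, e', n') hf'
      rw [Real.norm_eq_abs] at h2
      have h3 := neg_abs_le (En Ω (z, e', n') * Dn T.F (z, e', n'))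
      have h4 : B2 ≤ max B2 0 := le_max_left _ _
      have h5 : |En Ω (z, e', n') * Dn T.F (z, e', n')| ≤ B2 := h2
      linarith
    have h3 : (r : ℝ) / T.k * (max B2 0) ≤ C := le_max_right _ _
    have h4 : -(C * n) ≤ En Ω (z, e', n') *
        (((r * n : ℕ) : ℝ) / T.k * (1 + a)⁻¹ * Dn T.F (z, e', n')) := by
      have h5 : En Ω (z, e', n') * (((r * n : ℕ) : ℝ) / T.k * (1 + a)⁻¹ * Dn T.F (z, e', n')) =
          (n * (1 + a)⁻¹) * ((r : ℝ) / T.k * (En Ω (z, e', n') * Dn T.F (z, e', n'))) := by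
        push_cast
        ring
      rw [h5]
      have h6 : -C ≤ (r : ℝ) / T.k * (En Ω (z, e', n') * Dn T.F (z, e', n')) := by
        have h7 : (r : ℝ) / T.k * -(max B2 0) ≤
            (r : ℝ) / T.k * (En Ω (z, e', n') * Dn T.F (z, e', n')) :=
          mul_le_mul_of_nonneg_left h2 (by positivity)
        linarith
      have h7 : (n : ℝ) * (1 + a)⁻¹ ≤ n := by
        have := mul_le_mul_of_nonneg_left hy1 (Nat.cast_nonneg (α := ℝ) n)
        linarith
      have h8 : (0 : ℝ) ≤ n * (1 + a)⁻¹ := by positivity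
      calc -(C * n) ≤ -(C * (n * (1 + a)⁻¹)) := by
            have := mul_le_mul_of_nonneg_left h7 hC0
            linarith
        _ = (n * (1 + a)⁻¹) * (-C) := by ring
        _ ≤ _ := mul_le_mul_of_nonneg_left h6 h8
    have h5 : -(C * (1 + n)) ≤ Tn Ω (z, e', n') + En Ω (z, e', n') *
        (((r * n : ℕ) : ℝ) / T.k * (1 + a)⁻¹ * Dn T.F (z, e', n')) := by linarith
    calc -(yt T r z ^ n * (C * (1 + n))) = yt T r z ^ n * (-(C * (1 + n))) := by ring
      _ ≤ _ := mul_le_mul_of_nonneg_left h5 hypos.le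

end Pool.Agent.H820.PT
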